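import Mathlib

set_option autoImplicit false

namespace Pool.Agent.R322.Turan

open Finset Filter Topology Complex MeasureTheory

/-- Partial sums of the Dirichlet series `∑ g n n^{-s}`. -/
noncomputable def psum (g : ℕ → ℂ) (N : ℕ) (s : ℂ) : ℂ := ∑ n ∈ Icc 1 N, g n * (n : ℂ) ^ (-s)

/-- `J n s = ∫_n^{n+1} t^{-s} dt`. -/
noncomputable def J (n : ℕ) (s : ℂ) : ℂ := ∫ t in (n:ℝ)..((n:ℝ)+1), (t : ℂ) ^ (-s)

/-- `K N s = ∫_1^N t^{-s} dt = (1 - N^{1-s})/(s-1)`. -/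
noncomputable def K (N : ℕ) (s : ℂ) : ℂ := - dslope (fun z : ℂ => (N : ℂ) ^ (1 - z)) 1 s

theorem sub_mul_K (N : ℕ) (s : ℂ) : (s - 1) * K N s = 1 - (N : ℂ) ^ (1 - s) := by
  have h := sub_smul_dslope (fun z : ℂ => (N : ℂ) ^ (1 - z)) 1 s
  rw [smul_eq_mul] at h
  unfold K
  rw [mul_neg, h]
  simp

theorem hasDerivAt_pow1 (N : ℕ) (hN : 1 ≤ N) (s : ℂ) :
    HasDerivAt (fun z : ℂ => (N : ℂ) ^ (1 - z)) (-(Complex.log N) * (N : ℂ) ^ (1 - s)) s := by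
  have h0 : (N : ℂ) ≠ 0 := by exact_mod_cast (by omega : N ≠ 0)
  have h1 : HasDerivAt (fun z : ℂ => 1 - z) (-1) s := by simpa using (hasDerivAt_id s).const_sub 1
  have := h1.const_cpow (c := (N : ℂ)) (Or.inl h0)
  convert this using 1
  ring

theorem K_at_one (N : ℕ) (hN : 1 ≤ N) : K N 1 = Complex.log N := by
  unfold K
  rw [dslope_same, (hasDerivAt_pow1 N hN 1).deriv]
  simp

theorem continuousAt_K (N : ℕ) (hN : 1 ≤ N) : ContinuousAt (K N) 1 :=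
  (continuousAt_dslope_same.2 (hasDerivAt_pow1 N hN 1).differentiableAt).neg

theorem K_one_left (s : ℂ) : K 1 s = 0 := by
  by_cases hs : s = 1
  · rw [hs, K_at_one 1 le_rfl]; simp
  · have h := sub_mul_K 1 s
    simp only [Nat.cast_one, one_cpow, sub_self, mul_eq_zero] at h
    exact h.resolve_left (sub_ne_zero.2 hs)

theorem K_succ (N : ℕ) (hN : 1 ≤ N) (s : ℂ) : K (N + 1) s = K N s + J N s := by
  have hN' : (0:ℝ) < N := by exact_mod_cast hN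
  have h0 : (0 : ℝ) ∉ Set.uIcc (N:ℝ) ((N:ℝ)+1) := by
    rw [Set.uIcc_of_le (by linarith)]
    intro h; linarith [h.1]
  by_cases hs : s = 1
  · subst hs
    rw [K_at_one _ hN, K_at_one _ (by omega)]
    unfold J
    have h1 : ∫ t in (N:ℝ)..((N:ℝ)+1), (t : ℂ) ^ (-1 : ℂ) = ((∫ t in (N:ℝ)..((N:ℝ)+1), t⁻¹ : ℝ) : ℂ) := by
      rw [← intervalIntegral.integral_ofReal]
      apply intervalIntegral.integral_congr
      intro t _
      simp [Complex.cpow_neg_one]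
    rw [h1, integral_inv h0, Real.log_div (by positivity) (by positivity)]
    have h2 : Complex.log ((N + 1 : ℕ) : ℂ) = ((Real.log ((N:ℝ) + 1) : ℝ) : ℂ) := by
      rw [Complex.ofReal_log (by positivity)]; push_cast; rfl
    have h3 : Complex.log (N : ℂ) = ((Real.log (N:ℝ) : ℝ) : ℂ) := by
      rw [Complex.ofReal_log (by positivity)]; push_cast; rfl
    rw [h2, h3]; push_cast; ring
  · have h1 := sub_mul_K N s
    have h2 := sub_mul_K (N+1) s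
    have h3 : J N s = (((N:ℂ) + 1) ^ (1 - s) - (N : ℂ) ^ (1 - s)) / (1 - s) := by
      unfold J
      rw [integral_cpow (Or.inr ⟨by simpa using hs, h0⟩)]
      have : -s + 1 = 1 - s := by ring
      rw [this]
      push_cast; rfl
    have hs' : s - 1 ≠ 0 := sub_ne_zero.2 hs
    have hs'' : 1 - s ≠ 0 := sub_ne_zero.2 (Ne.symm hs)
    apply mul_left_cancel₀ hs'
    rw [mul_add, h2, h1, h3]
    push_cast
    field_simp
    ring

/-- The derivative bound. -/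
theorem cpow_sub_le (n : ℕ) (hn : 1 ≤ n) (s : ℂ) (hs : ‖s - 1‖ ≤ 1 / 4) (t : ℝ)
    (ht : t ∈ Set.Icc (n:ℝ) ((n:ℝ)+1)) :
    ‖(t : ℂ) ^ (-s) - (n : ℂ) ^ (-s)‖ ≤ 2 * (n : ℝ) ^ (-(7/4) : ℝ) := by
  have hn' : (1:ℝ) ≤ n := by exact_mod_cast hn
  have hre : 3 / 4 ≤ s.re := by
    have := (Complex.abs_re_le_norm (s - 1)).trans hs
    rw [Complex.sub_re, Complex.one_re, abs_le] at this
    linarith [this.1]
  have hs0 : s ≠ 0 := by
    intro h; rw [h] at hre; simp at hre; linarith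
  have hsn : ‖s‖ ≤ 2 := by
    have : ‖s‖ ≤ ‖s - 1‖ + ‖(1:ℂ)‖ := by
      calc ‖s‖ = ‖(s - 1) + 1‖ := by ring_nf
        _ ≤ _ := norm_add_le _ _
    rw [norm_one] at this; linarith
  have key := norm_image_sub_le_of_norm_deriv_le_segment' (f := fun t : ℝ => (t : ℂ) ^ (-s))
    (f' := fun t : ℝ => (-s) * (t : ℂ) ^ (-s - 1)) (C := 2 * (n : ℝ) ^ (-(7/4) : ℝ))
    (a := (n:ℝ)) (b := (n:ℝ) + 1)
    (fun x hx => (hasDerivAt_ofReal_cpow_const (by linarith [hx.1] : x ≠ 0)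
      (neg_ne_zero.2 hs0)).hasDerivWithinAt)
    (fun x hx => by
      have hx1 : 1 ≤ x := hn'.trans hx.1
      rw [norm_mul, norm_neg, Complex.norm_cpow_eq_rpow_re_of_pos (by linarith)]
      have e1 : x ^ (-s - 1).re ≤ x ^ (-(7/4) : ℝ) := by
        apply Real.rpow_le_rpow_of_exponent_le hx1
        simp; linarith
      have e2 : x ^ (-(7/4) : ℝ) ≤ (n:ℝ) ^ (-(7/4) : ℝ) :=
        Real.rpow_le_rpow_of_nonpos (by linarith) hx.1 (by norm_num)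
      exact mul_le_mul hsn (e1.trans e2) (Real.rpow_nonneg (by linarith) _) (by norm_num)) t ht
  refine key.trans ?_
  have : t - n ≤ 1 := by linarith [ht.2]
  have h0 : 0 ≤ 2 * (n : ℝ) ^ (-(7/4) : ℝ) := by positivity
  nlinarith

theorem sub_J_le (n : ℕ) (hn : 1 ≤ n) (s : ℂ) (hs : ‖s - 1‖ ≤ 1 / 4) :
    ‖(n : ℂ) ^ (-s) - J n s‖ ≤ 2 * (n : ℝ) ^ (-(7/4) : ℝ) := by
  have hn' : (1:ℝ) ≤ n := by exact_mod_cast hn
  have hint : IntervalIntegrable (fun t : ℝ => (t : ℂ) ^ (-s)) volume (n:ℝ) ((n:ℝ)+1) := by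
    apply ContinuousOn.intervalIntegrable
    intro t ht
    rw [Set.uIcc_of_le (by linarith)] at ht
    exact (continuousAt_ofReal_cpow_const _ _ (Or.inr (by linarith [ht.1]))).continuousWithinAt
  have h1 : (n : ℂ) ^ (-s) - J n s = ∫ t in (n:ℝ)..((n:ℝ)+1), ((n : ℂ) ^ (-s) - (t : ℂ) ^ (-s)) := by
    rw [intervalIntegral.integral_sub intervalIntegrable_const hint]
    simp [J]
  rw [h1]
  have := intervalIntegral.norm_integral_le_of_norm_le_const (a := (n:ℝ)) (b := (n:ℝ)+1)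
    (f := fun t : ℝ => ((n : ℂ) ^ (-s) - (t : ℂ) ^ (-s))) (C := 2 * (n : ℝ) ^ (-(7/4) : ℝ)) (by
      intro t ht
      rw [Set.uIoc_of_le (by linarith)] at ht
      rw [norm_sub_rev]
      exact cpow_sub_le n hn s hs t ⟨ht.1.le, ht.2⟩)
  refine this.trans ?_
  simp

/-- the `n`-th term after partial summation -/
noncomputable def q (g : ℕ → ℂ) (c : ℂ) (n : ℕ) (s : ℂ) : ℂ :=
  (∑ i ∈ Icc 1 n, g i - c * n) * ((n : ℂ) ^ (-s) - ((n + 1 : ℕ) : ℂ) ^ (-s)) +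
    c * ((n : ℂ) ^ (-s) - J n s)

theorem abel (g : ℕ → ℂ) (c : ℂ) (s : ℂ) (N : ℕ) :
    psum g (N + 1) s - c * K (N + 1) s =
      (∑ i ∈ Icc 1 (N + 1), g i - c * (N + 1 : ℕ) + c) * ((N + 1 : ℕ) : ℂ) ^ (-s) +
      ∑ n ∈ range N, q g c (n + 1) s := by
  induction N with
  | zero => simp [psum, K_one_left]
  | succ N ih =>
    rw [K_succ _ (by omega), sum_range_succ]
    have h1 : psum g (N + 1 + 1) s = psum g (N + 1) s + g (N + 1 + 1) * ((N + 1 + 1 : ℕ) : ℂ) ^ (-s) := by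
      unfold psum
      rw [Finset.sum_Icc_succ_top (by omega)]
    have h2 : ∑ i ∈ Icc 1 (N + 1 + 1), g i = ∑ i ∈ Icc 1 (N + 1), g i + g (N + 1 + 1) := by
      rw [Finset.sum_Icc_succ_top (by omega)]
    rw [h1, h2]
    have h3 : psum g (N + 1) s = (∑ i ∈ Icc 1 (N + 1), g i - c * (N + 1 : ℕ) + c) * ((N + 1 : ℕ) : ℂ) ^ (-s) +
      ∑ n ∈ range N, q g c (n + 1) s + c * K (N + 1) s := by
      rw [← ih]; ring
    rw [h3]
    unfold q
    push_cast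
    ring

theorem q_le (g : ℕ → ℂ) (c : ℂ) (C : ℝ) (hE : ∀ M : ℕ, ‖∑ n ∈ Icc 1 M, g n - c * M‖ ≤ C * √M)
    (n : ℕ) (hn : 1 ≤ n) (s : ℂ) (hs : ‖s - 1‖ ≤ 1 / 4) :
    ‖q g c n s‖ ≤ 2 * (C + ‖c‖) * (n : ℝ) ^ (-(5/4) : ℝ) := by
  have hn' : (1:ℝ) ≤ n := by exact_mod_cast hn
  have hC : 0 ≤ C := by
    have := (norm_nonneg _).trans (hE 1)
    simpa using this
  unfold q
  have h1 := cpow_sub_le n hn s hs ((n:ℝ)+1) ⟨by linarith, le_rfl⟩
  have h2 := sub_J_le n hn s hs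
  have h3 : ‖(n : ℂ) ^ (-s) - ((n + 1 : ℕ) : ℂ) ^ (-s)‖ ≤ 2 * (n : ℝ) ^ (-(7/4) : ℝ) := by
    rw [norm_sub_rev]
    refine le_trans (le_of_eq ?_) h1
    push_cast; rfl
  have h4 : √(n:ℝ) * (n : ℝ) ^ (-(7/4) : ℝ) = (n : ℝ) ^ (-(5/4) : ℝ) := by
    rw [Real.sqrt_eq_rpow, ← Real.rpow_add (by linarith)]
    norm_num
  have h5 : (n : ℝ) ^ (-(7/4) : ℝ) ≤ (n : ℝ) ^ (-(5/4) : ℝ) :=
    Real.rpow_le_rpow_of_exponent_le hn' (by norm_num)
  calc _ ≤ ‖(∑ i ∈ Icc 1 n, g i - c * n)‖ * ‖((n : ℂ) ^ (-s) - ((n + 1 : ℕ) : ℂ) ^ (-s))‖ +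
        ‖c‖ * ‖((n : ℂ) ^ (-s) - J n s)‖ := by
        refine (norm_add_le _ _).trans ?_
        rw [norm_mul, norm_mul]
    _ ≤ (C * √n) * (2 * (n : ℝ) ^ (-(7/4) : ℝ)) + ‖c‖ * (2 * (n : ℝ) ^ (-(7/4) : ℝ)) := by
        gcongr
        exact hE n
    _ = 2 * C * (√n * (n : ℝ) ^ (-(7/4) : ℝ)) + 2 * ‖c‖ * (n : ℝ) ^ (-(7/4) : ℝ) := by ring
    _ ≤ 2 * C * (n : ℝ) ^ (-(5/4) : ℝ) + 2 * ‖c‖ * (n : ℝ) ^ (-(5/4) : ℝ) := by
        rw [h4]; gcongr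
    _ = _ := by ring

theorem continuousAt_J (n : ℕ) (hn : 1 ≤ n) : ContinuousAt (J n) 1 := by
  have : J n = fun s => K (n + 1) s - K n s := by
    ext s; rw [K_succ n hn]; ring
  rw [this]
  exact (continuousAt_K _ (by omega)).sub (continuousAt_K _ hn)

theorem continuousAt_q (g : ℕ → ℂ) (c : ℂ) (n : ℕ) (hn : 1 ≤ n) : ContinuousAt (q g c n) 1 := by
  have h1 : ∀ m : ℕ, 1 ≤ m → ContinuousAt (fun s : ℂ => (m : ℂ) ^ (-s)) 1 := by
    intro m hm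
    have h0 : (m : ℂ) ≠ 0 := by exact_mod_cast (by omega : m ≠ 0)
    exact ((continuous_neg.const_cpow (Or.inl h0)).continuousAt)
  unfold q
  exact (continuousAt_const.mul ((h1 n hn).sub (h1 (n+1) (by omega)))).add
    (continuousAt_const.mul ((h1 n hn).sub (continuousAt_J n hn)))

theorem joint (g : ℕ → ℂ) (c : ℂ) (C : ℝ) (hE : ∀ M : ℕ, ‖∑ n ∈ Icc 1 M, g n - c * M‖ ≤ C * √M) :
    ∃ ℓ : ℂ, Tendsto (fun p : ℕ × ℂ => psum g p.1 p.2 - c * K p.1 p.2) (atTop ×ˢ 𝓝 1) (𝓝 ℓ) := by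
  have hC : 0 ≤ C := by
    have := (norm_nonneg _).trans (hE 1)
    simpa using this
  refine ⟨∑' n, q g c (n + 1) 1, ?_⟩
  have hnear : ∀ᶠ p : ℕ × ℂ in atTop ×ˢ 𝓝 1, ‖p.2 - 1‖ ≤ 1 / 4 := by
    have : ∀ᶠ s : ℂ in 𝓝 1, ‖s - 1‖ ≤ 1 / 4 := by
      filter_upwards [Metric.closedBall_mem_nhds (1:ℂ) (by norm_num : (0:ℝ) < 1/4)] with s hs
      rwa [mem_closedBall_iff_norm] at hs
    exact this.prod_inr _
  have hlarge : ∀ᶠ p : ℕ × ℂ in atTop ×ˢ 𝓝 1, 1 ≤ p.1 :=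
    (eventually_ge_atTop 1).prod_inl _
  -- the main sum
  have hsum : Tendsto (fun p : ℕ × ℂ => ∑' n, (if n < p.1 - 1 then q g c (n + 1) p.2 else 0))
      (atTop ×ˢ 𝓝 1) (𝓝 (∑' n, q g c (n + 1) 1)) := by
    refine tendsto_tsum_of_dominated_convergence
      (bound := fun n : ℕ => 2 * (C + ‖c‖) * ((n + 1 : ℕ) : ℝ) ^ (-(5/4) : ℝ)) ?_ ?_ ?_
    · apply Summable.mul_left
      exact (summable_nat_add_iff 1).2 (Real.summable_nat_rpow.2 (by norm_num))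
    · intro n
      have h1 : Tendsto (fun p : ℕ × ℂ => q g c (n + 1) p.2) (atTop ×ˢ 𝓝 1) (𝓝 (q g c (n + 1) 1)) :=
        (continuousAt_q g c (n+1) (by omega)).tendsto.comp tendsto_snd
      refine h1.congr' ?_
      have : ∀ᶠ p : ℕ × ℂ in atTop ×ˢ 𝓝 1, n + 2 ≤ p.1 := (eventually_ge_atTop (n+2)).prod_inl _
      filter_upwards [this] with p hp
      rw [if_pos (by omega)]
    · filter_upwards [hnear] with p hp n
      split_ifs with h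
      · exact q_le g c C hE (n+1) (by omega) p.2 hp
      · rw [norm_zero]; positivity
  -- the boundary term
  have hbd : Tendsto (fun p : ℕ × ℂ => (∑ i ∈ Icc 1 p.1, g i - c * p.1 + c) * (p.1 : ℂ) ^ (-p.2))
      (atTop ×ˢ 𝓝 1) (𝓝 0) := by
    have hb : Tendsto (fun N : ℕ => (C + ‖c‖) * (N : ℝ) ^ (-(1/4) : ℝ)) atTop (𝓝 0) := by
      have := (tendsto_rpow_neg_atTop (by norm_num : (0:ℝ) < 1/4)).comp tendsto_natCast_atTop_atTop
      simpa using this.const_mul (C + ‖c‖)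
    have hb' : Tendsto (fun p : ℕ × ℂ => (C + ‖c‖) * (p.1 : ℝ) ^ (-(1/4) : ℝ)) (atTop ×ˢ 𝓝 1) (𝓝 0) :=
      hb.comp tendsto_fst
    refine squeeze_zero_norm' ?_ hb'
    filter_upwards [hnear, hlarge] with p hp hp1
    have hn' : (1:ℝ) ≤ p.1 := by exact_mod_cast hp1
    have hre : 3 / 4 ≤ p.2.re := by
      have := (Complex.abs_re_le_norm (p.2 - 1)).trans hp
      rw [Complex.sub_re, Complex.one_re, abs_le] at this
      linarith [this.1]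
    have e1 : ‖(p.1 : ℂ) ^ (-p.2)‖ ≤ (p.1 : ℝ) ^ (-(3/4) : ℝ) := by
      have : (p.1 : ℂ) = ((p.1 : ℝ) : ℂ) := by push_cast; rfl
      rw [this, Complex.norm_cpow_eq_rpow_re_of_pos (by linarith)]
      apply Real.rpow_le_rpow_of_exponent_le hn'
      simp; linarith
    have e2 : ‖∑ i ∈ Icc 1 p.1, g i - c * p.1 + c‖ ≤ (C + ‖c‖) * √p.1 := by
      refine (norm_add_le _ _).trans ?_
      have h1 := hE p.1
      have h2 : 1 ≤ √(p.1:ℝ) := by rw [Real.one_le_sqrt]; exact hn'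
      nlinarith [norm_nonneg c]
    have e3 : √(p.1:ℝ) * (p.1 : ℝ) ^ (-(3/4) : ℝ) = (p.1 : ℝ) ^ (-(1/4) : ℝ) := by
      rw [Real.sqrt_eq_rpow, ← Real.rpow_add (by linarith)]
      norm_num
    rw [norm_mul]
    calc _ ≤ ((C + ‖c‖) * √p.1) * (p.1 : ℝ) ^ (-(3/4) : ℝ) := by gcongr
      _ = _ := by rw [mul_assoc, e3]
  have := hbd.add hsum
  rw [zero_add] at this
  refine this.congr' ?_
  filter_upwards [hlarge] with p hp
  obtain ⟨N, hN⟩ : ∃ N, p.1 = N + 1 := ⟨p.1 - 1, by omega⟩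
  rw [hN, abel g c p.2 N]
  congr 1
  rw [tsum_eq_sum (s := range N)]
  · apply sum_congr rfl
    intro n hn
    rw [mem_range] at hn
    rw [if_pos (by omega)]
  · intro n hn
    rw [mem_range] at hn
    rw [if_neg (by omega)]

end Pool.Agent.R322.Turan
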