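import Mathlib
import Pool.Agent.R322.Turan.Abel

set_option autoImplicit false

namespace Pool.Agent.R322.Turan

open Finset Filter Topology Complex MeasureTheory

/-- the rescaled point -/
noncomputable def sp (N : ℕ) (y : ℂ) : ℂ :=
  1 - 2 * Real.pi * I / (Real.log N : ℝ) - y / ((Real.log N : ℝ) : ℂ) ^ 2

theorem sp_sub_one_mul (N : ℕ) (hL : Real.log N ≠ 0) (y : ℂ) :
    ((Real.log N : ℝ) : ℂ) * (sp N y - 1) = -(2 * Real.pi * I) - y / ((Real.log N : ℝ) : ℂ) := by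
  have h : ((Real.log N : ℝ) : ℂ) ≠ 0 := by exact_mod_cast hL
  unfold sp
  field_simp
  ring

theorem pow_sp (N : ℕ) (hN : 2 ≤ N) (y : ℂ) :
    (N : ℂ) ^ (1 - sp N y) = Complex.exp (y / ((Real.log N : ℝ) : ℂ)) := by
  have hN' : (1:ℝ) < N := by exact_mod_cast hN
  have hL : Real.log N ≠ 0 := (Real.log_pos hN').ne'
  have h0 : (N : ℂ) ≠ 0 := by exact_mod_cast (by omega : N ≠ 0)
  have h1 := sp_sub_one_mul N hL y
  rw [Complex.cpow_def_of_ne_zero h0]
  have h2 : Complex.log (N : ℂ) = ((Real.log (N:ℝ) : ℝ) : ℂ) := by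
    rw [Complex.ofReal_log (by positivity)]; push_cast; rfl
  rw [h2]
  have h3 : ((Real.log (N:ℝ) : ℝ) : ℂ) * (1 - sp N y) = y / ((Real.log N : ℝ) : ℂ) + 2 * Real.pi * I := by
    have : ((Real.log (N:ℝ) : ℝ) : ℂ) * (1 - sp N y) = - (((Real.log (N:ℝ) : ℝ) : ℂ) * (sp N y - 1)) := by ring
    rw [this, h1]; ring
  rw [h3, Complex.exp_add, Complex.exp_two_pi_mul_I, mul_one]

theorem exp_est (L : ℝ) (hL : 0 < L) (M : ℝ) (y : ℂ) (hy : ‖y‖ ≤ M) (hLM : M ≤ L) :
    ‖(L : ℂ) * (1 - Complex.exp (y / (L : ℂ))) + y‖ ≤ M ^ 2 * L⁻¹ := by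
  have h' : (L : ℂ) ≠ 0 := by exact_mod_cast hL.ne'
  have hnorm : ‖y / (L : ℂ)‖ = ‖y‖ / L := by
    rw [norm_div, Complex.norm_real, Real.norm_of_nonneg hL.le]
  have hle : ‖y / (L : ℂ)‖ ≤ 1 := by
    rw [hnorm, div_le_one hL]; exact hy.trans hLM
  have h1 := Complex.norm_exp_sub_one_sub_id_le hle
  have h2 : (L : ℂ) * (1 - Complex.exp (y / (L : ℂ))) + y =
      -(L : ℂ) * (Complex.exp (y / (L : ℂ)) - 1 - y / (L : ℂ)) := by
    have h3 : (L : ℂ) * (y / (L : ℂ)) = y := mul_div_cancel₀ _ h'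
    rw [mul_sub, mul_sub, mul_sub]
    rw [neg_mul, neg_mul, neg_mul, h3]
    ring
  rw [h2, norm_mul, norm_neg, Complex.norm_real, Real.norm_of_nonneg hL.le]
  have hy0 : 0 ≤ ‖y‖ := norm_nonneg y
  calc L * ‖Complex.exp (y / (L : ℂ)) - 1 - y / (L : ℂ)‖ ≤ L * (‖y‖ / L) ^ 2 := by
        rw [hnorm] at h1
        gcongr
    _ = ‖y‖ ^ 2 * L⁻¹ := by field_simp
    _ ≤ _ := by gcongr

theorem ball_exists (g : ℕ → ℂ) (c ℓ : ℂ) (hc : c ≠ 0)
    (hj : Tendsto (fun p : ℕ × ℂ => psum g p.1 p.2 - c * K p.1 p.2) (atTop ×ˢ 𝓝 1) (𝓝 ℓ))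
    (hb : (ℓ / c).im < 0) :
    ∃ κ > 0, ∃ N0 : ℕ, 2 ≤ N0 ∧ ∀ N ≥ N0, ∃ s0 : ℂ, ∃ R > 0, ∃ η > 0,
      (∀ s ∈ Metric.closedBall s0 R, 1 + κ / (Real.log N) ^ 2 ≤ s.re) ∧
      ‖(s0 - 1) * psum g N s0‖ < η ∧
      ∀ s ∈ Metric.sphere s0 R, 2 * η ≤ ‖(s - 1) * psum g N s‖ := by
  set b := ℓ / c with hbdef
  set y0 : ℂ := -(2 * Real.pi * I) * b with hy0
  have hre : y0.re = 2 * Real.pi * b.im := by
    rw [hy0]; simp [Complex.mul_re, Complex.mul_im]
  have hD : 0 < -y0.re := by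
    rw [hre]; have := Real.pi_pos; nlinarith
  set D := -y0.re with hDdef
  set r := D / 2 with hr
  have hr0 : 0 < r := by positivity
  set B := Metric.closedBall y0 r with hB
  set M := ‖y0‖ + r with hM
  have hM0 : 0 < M := by positivity
  have hMB : ∀ y ∈ B, ‖y‖ ≤ M := by
    intro y hy
    rw [hB, mem_closedBall_iff_norm] at hy
    calc ‖y‖ = ‖y0 + (y - y0)‖ := by ring_nf
      _ ≤ ‖y0‖ + ‖y - y0‖ := norm_add_le _ _
      _ ≤ M := by rw [hM]; linarith
  set F : Filter (ℕ × ℂ) := atTop ×ˢ 𝓟 B with hF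
  have hfst : Tendsto (fun p : ℕ × ℂ => p.1) F atTop := tendsto_fst
  have hlog : Tendsto (fun p : ℕ × ℂ => Real.log p.1) F atTop :=
    (Real.tendsto_log_atTop.comp tendsto_natCast_atTop_atTop).comp hfst
  have hinB : ∀ᶠ p : ℕ × ℂ in F, p.2 ∈ B :=
    (eventually_principal.2 (fun x hx => hx) : ∀ᶠ y in 𝓟 B, y ∈ B).prod_inr _
  have hge2 : ∀ᶠ p : ℕ × ℂ in F, 2 ≤ p.1 := (eventually_ge_atTop 2).prod_inl _
  have hlog1 : ∀ᶠ p : ℕ × ℂ in F, max 1 M ≤ Real.log p.1 := hlog.eventually_ge_atTop _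
  have hinv : Tendsto (fun p : ℕ × ℂ => (Real.log p.1)⁻¹) F (𝓝 0) := tendsto_inv_atTop_zero.comp hlog
  -- y / L → 0
  have hyL : Tendsto (fun p : ℕ × ℂ => p.2 / ((Real.log p.1 : ℝ) : ℂ)) F (𝓝 0) := by
    refine squeeze_zero_norm' (a := fun p : ℕ × ℂ => M * (Real.log p.1)⁻¹) ?_ (by simpa using hinv.const_mul M)
    filter_upwards [hinB, hlog1] with p hp hp1
    have : 0 < Real.log p.1 := lt_of_lt_of_le (by positivity) hp1
    rw [norm_div, Complex.norm_real, Real.norm_of_nonneg this.le, div_eq_mul_inv]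
    have := hMB _ hp
    gcongr
  -- L (s - 1) → -2πi
  have hLs : Tendsto (fun p : ℕ × ℂ => ((Real.log p.1 : ℝ) : ℂ) * (sp p.1 p.2 - 1)) F
      (𝓝 (-(2 * Real.pi * I))) := by
    have := (tendsto_const_nhds (x := -(2 * Real.pi * I)) (f := F)).sub hyL
    rw [sub_zero] at this
    refine this.congr' ?_
    filter_upwards [hlog1] with p hp1
    have : 0 < Real.log p.1 := lt_of_lt_of_le (by positivity) hp1
    rw [sp_sub_one_mul p.1 this.ne']
  -- s → 1
  have hs1 : Tendsto (fun p : ℕ × ℂ => sp p.1 p.2) F (𝓝 1) := by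
    have hinvC : Tendsto (fun p : ℕ × ℂ => (((Real.log p.1)⁻¹ : ℝ) : ℂ)) F (𝓝 0) := by
      have := (Complex.continuous_ofReal.tendsto 0).comp hinv
      rw [Complex.ofReal_zero] at this
      exact this
    have h := (hLs.mul hinvC).add_const 1
    rw [mul_zero, zero_add] at h
    refine h.congr' ?_
    filter_upwards [hlog1] with p hp1
    have : 0 < Real.log p.1 := lt_of_lt_of_le (by positivity) hp1
    have h' : ((Real.log p.1 : ℝ) : ℂ) ≠ 0 := by exact_mod_cast this.ne'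
    show ((Real.log p.1 : ℝ) : ℂ) * (sp p.1 p.2 - 1) * (((Real.log p.1)⁻¹ : ℝ) : ℂ) + 1 = sp p.1 p.2
    rw [Complex.ofReal_inv, mul_comm ((Real.log p.1 : ℝ) : ℂ), mul_assoc, mul_inv_cancel₀ h']
    ring
  -- the Q part
  have hQ : Tendsto (fun p : ℕ × ℂ => psum g p.1 (sp p.1 p.2) - c * K p.1 (sp p.1 p.2)) F (𝓝 ℓ) :=
    by
    have hpair : Tendsto (fun p : ℕ × ℂ => ((p.1, sp p.1 p.2) : ℕ × ℂ)) F (atTop ×ˢ 𝓝 1) := hfst.prodMk hs1
    have h := hj.comp hpair
    exact h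
  -- L (1 - exp (y/L)) + y → 0
  have hexp : Tendsto (fun p : ℕ × ℂ => ((Real.log p.1 : ℝ) : ℂ) *
      (1 - Complex.exp (p.2 / ((Real.log p.1 : ℝ) : ℂ))) + p.2) F (𝓝 0) := by
    have hM2 : Tendsto (fun p : ℕ × ℂ => M ^ 2 * (Real.log p.1)⁻¹) F (𝓝 0) := by
      have := hinv.const_mul (M ^ 2)
      rw [mul_zero] at this
      exact this
    refine squeeze_zero_norm' ?_ hM2
    filter_upwards [hinB, hlog1] with p hp hp1
    have hL : 0 < Real.log p.1 := lt_of_lt_of_le (by positivity) hp1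
    have hLM : M ≤ Real.log p.1 := (le_max_right _ _).trans hp1
    exact exp_est _ hL M p.2 (hMB _ hp) hLM
  -- the total
  have htot : Tendsto (fun p : ℕ × ℂ => ((Real.log p.1 : ℝ) : ℂ) * ((sp p.1 p.2 - 1) *
      psum g p.1 (sp p.1 p.2)) / c + p.2) F (𝓝 y0) := by
    have h1 := (hLs.mul (hQ.div_const c)).add hexp
    have h2 : -(2 * Real.pi * I) * (ℓ / c) + 0 = y0 := by rw [add_zero]
    rw [h2] at h1
    refine h1.congr' ?_
    filter_upwards [hlog1, hge2] with p hp1 hp2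
    have hk := sub_mul_K p.1 (sp p.1 p.2)
    rw [pow_sp p.1 hp2] at hk
    rw [← hk]
    field_simp
    ring
  have hev := (Metric.tendsto_nhds.1 htot) (r / 4) (by positivity)
  rw [hF, Filter.eventually_prod_principal_iff] at hev
  obtain ⟨N1, hN1⟩ := eventually_atTop.1 hev
  refine ⟨D / 2, by positivity, max 2 N1, le_max_left _ _, fun N hN => ?_⟩
  have hN2 : 2 ≤ N := (le_max_left _ _).trans hN
  have hNN : N1 ≤ N := (le_max_right _ _).trans hN
  have hN' : (1:ℝ) < N := by exact_mod_cast hN2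
  have hL : 0 < Real.log N := Real.log_pos hN'
  set L := Real.log N with hLdef
  have hLC : ((L : ℝ) : ℂ) ≠ 0 := by exact_mod_cast hL.ne'
  have key := hN1 N hNN
  have hcn : 0 < ‖c‖ := norm_pos_iff.2 hc
  have hest : ∀ y ∈ B, ‖(sp N y - 1) * psum g N (sp N y) * (L : ℂ) / c - (y0 - y)‖ < r / 4 := by
    intro y hy
    have := key y hy
    rw [dist_eq_norm] at this
    refine lt_of_eq_of_lt ?_ this
    congr 1
    ring
  have hident : ∀ y, ‖(sp N y - 1) * psum g N (sp N y)‖ =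
      ‖c‖ / L * ‖(sp N y - 1) * psum g N (sp N y) * (L : ℂ) / c‖ := by
    intro y
    rw [norm_div, norm_mul _ (L : ℂ), Complex.norm_real, Real.norm_of_nonneg hL.le]
    field_simp
  refine ⟨sp N y0, r / L ^ 2, by positivity, ‖c‖ / L * (r / 4), by positivity, ?_, ?_, ?_⟩
  · intro s hs
    rw [mem_closedBall_iff_norm] at hs
    have h1 : (s - sp N y0).re ≤ ‖s - sp N y0‖ := Complex.re_le_norm _
    have h1' : -(s - sp N y0).re ≤ ‖s - sp N y0‖ := by
      have := Complex.abs_re_le_norm (s - sp N y0)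
      exact (neg_le_abs _).trans this
    have h2 : (sp N y0).re = 1 + D / L ^ 2 := by
      have e1 : sp N y0 = 1 + (((-(1/L)) : ℝ) : ℂ) * (2 * Real.pi * I) + ((-(1 / L ^ 2) : ℝ) : ℂ) * y0 := by
        unfold sp
        rw [← hLdef]
        push_cast
        ring
      rw [e1, Complex.add_re, Complex.add_re, Complex.re_ofReal_mul, Complex.re_ofReal_mul]
      have e2 : (2 * (Real.pi : ℂ) * I).re = 0 := by simp
      rw [e2, Complex.one_re]
      have e3 : y0.re = -D := by rw [hDdef]; ring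
      rw [e3]
      ring
    rw [Complex.sub_re, h2] at h1'
    have h3 : D / L ^ 2 - r / L ^ 2 = D / 2 / L ^ 2 := by rw [hr]; ring
    linarith
  · rw [hident]
    have h := hest y0 (Metric.mem_closedBall_self hr0.le)
    rw [sub_self, sub_zero] at h
    exact mul_lt_mul_of_pos_left h (by positivity)
  · intro s hs
    -- s = sp N y
    set y : ℂ := y0 - (L : ℂ) ^ 2 * (s - sp N y0) with hy
    have hsy : sp N y = s := by
      have e1 : sp N y = sp N y0 + (y0 - y) / (L : ℂ) ^ 2 := by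
        unfold sp
        rw [← hLdef]
        ring
      rw [e1, hy]
      field_simp
      ring
    have hyn : ‖y0 - y‖ = r := by
      have e1 : y0 - y = (L : ℂ) ^ 2 * (s - sp N y0) := by rw [hy]; ring
      rw [mem_sphere_iff_norm] at hs
      rw [e1, norm_mul, hs, norm_pow, Complex.norm_real, Real.norm_of_nonneg hL.le]
      field_simp
    have hyB : y ∈ B := by
      rw [hB, mem_closedBall_iff_norm, norm_sub_rev, hyn]
    have h := hest y hyB
    rw [← hsy, hident]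
    have h4 : 3 * (r / 4) ≤ ‖(sp N y - 1) * psum g N (sp N y) * (L : ℂ) / c‖ := by
      have := norm_sub_norm_le (y0 - y) ((sp N y - 1) * psum g N (sp N y) * (L : ℂ) / c)
      rw [norm_sub_rev (y0 - y)] at this
      rw [hyn] at this
      linarith
    have h5 : 0 < ‖c‖ / L := by positivity
    nlinarith

end Pool.Agent.R322.Turan
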