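import Mathlib
import Pool.Agent.R322.Turan.Ball

set_option autoImplicit false

namespace Pool.Agent.R322.Turan

open Finset Filter Topology Complex MeasureTheory

/-- The model function: completely multiplicative, `0` on integers not coprime to `k`,
`1` at all primes not dividing `k` except `p`, where it is `i`. -/
noncomputable def gm (k p : ℕ) (n : ℕ) : ℂ := if n.Coprime k then I ^ (n.factorization p) else 0

/-- The indicator of being coprime to `k * p`, as a real number. -/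
noncomputable def tr (k p : ℕ) (n : ℕ) : ℝ := if n.Coprime (k * p) then 1 else 0

noncomputable def tm (k p : ℕ) (n : ℕ) : ℂ := (tr k p n : ℂ)

variable {k p : ℕ}

theorem gm_mul (hp : p.Prime) (hpk : ¬ p ∣ k) (m : ℕ) (hm : 1 ≤ m) : gm k p (p * m) = I * gm k p m := by
  have hc : p.Coprime k := (Nat.Prime.coprime_iff_not_dvd hp).2 hpk
  unfold gm
  have h1 : (p * m).Coprime k ↔ m.Coprime k := by
    rw [Nat.coprime_mul_iff_left]; exact ⟨fun h => h.2, fun h => ⟨hc, h⟩⟩
  have h2 : (p * m).factorization p = m.factorization p + 1 := by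
    rw [Nat.factorization_mul hp.ne_zero (by omega)]
    simp [hp.factorization_self, add_comm]
  rw [h2]
  by_cases h : m.Coprime k
  · rw [if_pos (h1.2 h), if_pos h, pow_succ]; ring
  · rw [if_neg (fun h' => h (h1.1 h')), if_neg h]; simp

theorem gm_eq (hp : p.Prime) (n : ℕ) :
    gm k p n = tm k p n + if p ∣ n then gm k p n else 0 := by
  by_cases h : p ∣ n
  · rw [if_pos h]
    have : ¬ n.Coprime (k * p) := by
      intro h'
      rw [Nat.coprime_mul_iff_right] at h'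
      exact (Nat.Prime.coprime_iff_not_dvd hp).1 h'.2.symm h
    unfold tm tr
    rw [if_neg this]; simp
  · rw [if_neg h, add_zero]
    unfold gm tm tr
    have h1 : n.Coprime p := ((Nat.Prime.coprime_iff_not_dvd hp).2 h).symm
    have h2 : n.factorization p = 0 := Nat.factorization_eq_zero_of_not_dvd h
    rw [h2, pow_zero]
    by_cases h3 : n.Coprime k
    · rw [if_pos h3, if_pos (Nat.coprime_mul_iff_right.2 ⟨h3, h1⟩)]; simp
    · rw [if_neg h3, if_neg (fun h' => h3 (Nat.coprime_mul_iff_right.1 h').1)]; simp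

theorem sum_dvd (hp : p.Prime) (f : ℕ → ℂ) (M : ℕ) :
    ∑ n ∈ Icc 1 M, (if p ∣ n then f n else 0) = ∑ m ∈ Icc 1 (M / p), f (p * m) := by
  rw [← sum_filter]
  have hp0 := hp.pos
  apply sum_nbij' (fun n => n / p) (fun m => p * m)
  · intro n hn
    rw [mem_filter, mem_Icc] at hn
    obtain ⟨⟨h1, h2⟩, m, rfl⟩ := hn
    rw [mem_Icc, Nat.mul_div_cancel_left _ hp0]
    refine ⟨?_, ?_⟩
    · rcases Nat.eq_zero_or_pos m with h | h
      · subst h; omega
      · exact h
    · rw [Nat.le_div_iff_mul_le hp0, mul_comm]; exact h2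
  · intro m hm
    rw [mem_Icc] at hm
    rw [mem_filter, mem_Icc]
    refine ⟨⟨?_, ?_⟩, dvd_mul_right _ _⟩
    · nlinarith [hm.1]
    · have := hm.2
      rw [Nat.le_div_iff_mul_le hp0] at this
      rw [mul_comm]; exact this
  · intro n hn
    rw [mem_filter] at hn
    exact Nat.mul_div_cancel' hn.2
  · intro m _
    exact Nat.mul_div_cancel_left _ hp0
  · intro n hn
    rw [mem_filter] at hn
    rw [Nat.mul_div_cancel' hn.2]

theorem split (hp : p.Prime) (hpk : ¬ p ∣ k) (h : ℕ → ℂ) (M : ℕ) :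
    ∑ n ∈ Icc 1 M, gm k p n * h n = ∑ n ∈ Icc 1 M, tm k p n * h n +
      I * ∑ m ∈ Icc 1 (M / p), gm k p m * h (p * m) := by
  have h1 : ∑ n ∈ Icc 1 M, gm k p n * h n = ∑ n ∈ Icc 1 M, tm k p n * h n +
      ∑ n ∈ Icc 1 M, (if p ∣ n then gm k p n * h n else 0) := by
    rw [← sum_add_distrib]
    apply sum_congr rfl
    intro n _
    conv_lhs => rw [gm_eq hp]
    split_ifs <;> ring
  rw [h1, sum_dvd hp (fun n => gm k p n * h n), mul_sum]
  congr 1
  apply sum_congr rfl
  intro m hm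
  rw [mem_Icc] at hm
  rw [gm_mul hp hpk m hm.1]
  ring

theorem tr_nonneg (n : ℕ) : 0 ≤ tr k p n := by unfold tr; split_ifs <;> norm_num
theorem tr_le_one (n : ℕ) : tr k p n ≤ 1 := by unfold tr; split_ifs <;> norm_num

theorem tr_add (n : ℕ) : tr k p (n + k * p) = tr k p n := by
  unfold tr
  have : (n + k * p).Coprime (k * p) ↔ n.Coprime (k * p) := by
    rw [Nat.coprime_add_self_left]
  simp only [this]

/-- the density -/
noncomputable def rho (k p : ℕ) : ℝ := (∑ n ∈ Icc 1 (k * p), tr k p n) / ((k * p : ℕ) : ℝ)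

theorem sum_tr_nonneg (M : ℕ) : 0 ≤ ∑ n ∈ Icc 1 M, tr k p n := sum_nonneg (fun n _ => tr_nonneg n)

theorem sum_tr_le (M : ℕ) : ∑ n ∈ Icc 1 M, tr k p n ≤ M := by
  calc _ ≤ ∑ n ∈ Icc 1 M, (1:ℝ) := sum_le_sum (fun n _ => tr_le_one n)
    _ = M := by simp

theorem rho_pos (hk : 1 ≤ k) (hp : p.Prime) : 0 < rho k p := by
  unfold rho
  have hkp : 1 ≤ k * p := Nat.mul_pos hk hp.pos
  apply div_pos
  · calc (0:ℝ) < tr k p 1 := by unfold tr; simp
      _ ≤ _ := single_le_sum (f := fun n => tr k p n) (fun n _ => tr_nonneg n) (by simp [hkp])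
  · exact_mod_cast hkp

theorem sum_tr_add (M : ℕ) : ∑ n ∈ Icc 1 (M + k * p), tr k p n =
    ∑ n ∈ Icc 1 M, tr k p n + ∑ n ∈ Icc 1 (k * p), tr k p n := by
  induction M with
  | zero => simp
  | succ M ih =>
    have e : M + 1 + k * p = M + k * p + 1 := by ring
    rw [e, sum_Icc_succ_top (by omega), ih, sum_Icc_succ_top (by omega)]
    have : tr k p (M + k * p + 1) = tr k p (M + 1) := by
      rw [← e, tr_add]
    rw [this]; ring

theorem tr_bound (hk : 1 ≤ k) (hp : p.Prime) (M : ℕ) :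
    |∑ n ∈ Icc 1 M, tr k p n - rho k p * M| ≤ 2 * ((k * p : ℕ) : ℝ) := by
  have hkp : 1 ≤ k * p := Nat.mul_pos hk hp.pos
  have hkp' : (0:ℝ) < ((k * p : ℕ) : ℝ) := by exact_mod_cast hkp
  induction M using Nat.strong_induction_on with
  | _ M ih =>
    by_cases hM : M < k * p
    · have h1 := sum_tr_nonneg (k := k) (p := p) M
      have h2 := sum_tr_le (k := k) (p := p) M
      have h3 : rho k p ≤ 1 := by
        unfold rho
        rw [div_le_one hkp']
        exact sum_tr_le _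
      have h4 := (rho_pos hk hp).le
      have h5 : (M : ℝ) ≤ ((k * p : ℕ) : ℝ) := by exact_mod_cast hM.le
      have h6 : (0:ℝ) ≤ M := Nat.cast_nonneg M
      rw [abs_le]
      constructor <;> nlinarith
    · obtain ⟨M', rfl⟩ : ∃ M', M = M' + k * p := ⟨M - k * p, by omega⟩
      rw [sum_tr_add]
      have h1 := ih M' (by omega)
      have h2 : rho k p * ((k * p : ℕ) : ℝ) = ∑ n ∈ Icc 1 (k * p), tr k p n := by
        unfold rho; field_simp
      have h3 : ∑ n ∈ Icc 1 M', tr k p n + ∑ n ∈ Icc 1 (k * p), tr k p n -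
          rho k p * ((M' + k * p : ℕ) : ℝ) = ∑ n ∈ Icc 1 M', tr k p n - rho k p * M' := by
        rw [← h2]; push_cast; ring
      rw [h3]; exact h1

theorem tm_bound (hk : 1 ≤ k) (hp : p.Prime) (M : ℕ) :
    ‖∑ n ∈ Icc 1 M, tm k p n - (rho k p : ℂ) * M‖ ≤ 2 * ((k * p : ℕ) : ℝ) := by
  have h := tr_bound hk hp M
  have : ∑ n ∈ Icc 1 M, tm k p n - (rho k p : ℂ) * M =
      ((∑ n ∈ Icc 1 M, tr k p n - rho k p * M : ℝ) : ℂ) := by
    unfold tm; push_cast; rfl
  rw [this, Complex.norm_real]; exact h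

theorem tm_bound' (hk : 1 ≤ k) (hp : p.Prime) (M : ℕ) :
    ‖∑ n ∈ Icc 1 M, tm k p n - (rho k p : ℂ) * M‖ ≤ 2 * ((k * p : ℕ) : ℝ) * √M := by
  rcases Nat.eq_zero_or_pos M with h | h
  · subst h; simp
  · refine (tm_bound hk hp M).trans ?_
    have : 1 ≤ √(M:ℝ) := by rw [Real.one_le_sqrt]; exact_mod_cast h
    have h0 : 0 ≤ 2 * ((k * p : ℕ) : ℝ) := by positivity
    nlinarith

/-- the mean value of `gm` -/
noncomputable def cm (k p : ℕ) : ℂ := (rho k p : ℂ) / (1 - I / p)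

theorem one_sub_ne (hp : p.Prime) : (1 - I / p : ℂ) ≠ 0 := by
  intro h
  have h1 := congrArg Complex.re h
  have h2 : (I / (p : ℂ)).re = 0 := by
    have : (I / (p:ℂ)) = (((1 / p : ℝ)) : ℂ) * I := by push_cast; ring
    rw [this, Complex.re_ofReal_mul]; simp
  rw [Complex.sub_re, h2] at h1
  simp at h1

theorem cm_ne (hk : 1 ≤ k) (hp : p.Prime) : cm k p ≠ 0 := by
  unfold cm
  exact div_ne_zero (by exact_mod_cast (rho_pos hk hp).ne') (one_sub_ne hp)

theorem cm_mul (hp : p.Prime) : cm k p * (1 - I / p) = rho k p := by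
  unfold cm
  exact div_mul_cancel₀ _ (one_sub_ne hp)

theorem gm_bound (hk : 1 ≤ k) (hp : p.Prime) (hpk : ¬ p ∣ k) (M : ℕ) :
    ‖∑ n ∈ Icc 1 M, gm k p n - cm k p * M‖ ≤ 4 * (2 * ((k * p : ℕ) : ℝ) + ‖cm k p‖) * √M := by
  set κ := 2 * ((k * p : ℕ) : ℝ) + ‖cm k p‖ with hκ
  have hκ0 : 0 ≤ κ := by positivity
  induction M using Nat.strong_induction_on with
  | _ M ih =>
    rcases Nat.eq_zero_or_pos M with h | h
    · subst h; simp
    · have h1 : ∑ n ∈ Icc 1 M, gm k p n = ∑ n ∈ Icc 1 M, tm k p n +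
          I * ∑ m ∈ Icc 1 (M / p), gm k p m := by
        have := split hp hpk (fun _ => 1) M
        simpa using this
      have hlt : M / p < M := Nat.div_lt_self h hp.one_lt
      have ih' := ih _ hlt
      have hp0 : (p:ℂ) ≠ 0 := by exact_mod_cast hp.ne_zero
      have hp0' : (0:ℝ) < p := by exact_mod_cast hp.pos
      have h2 : ∑ n ∈ Icc 1 M, gm k p n - cm k p * M =
          (∑ n ∈ Icc 1 M, tm k p n - (rho k p : ℂ) * M) +
          I * (∑ m ∈ Icc 1 (M / p), gm k p m - cm k p * ((M / p : ℕ) : ℂ)) +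
          I * cm k p * (((M / p : ℕ) : ℂ) - (M : ℂ) / p) := by
        rw [h1, ← cm_mul hp]
        field_simp
        ring
      have h3 : ‖(((M / p : ℕ) : ℂ) - (M : ℂ) / p)‖ ≤ 1 := by
        have e : (((M / p : ℕ) : ℂ) - (M : ℂ) / p) = ((((M / p : ℕ) : ℝ) - (M : ℝ) / p : ℝ) : ℂ) := by
          push_cast; rfl
        rw [e, Complex.norm_real, Real.norm_eq_abs, abs_le]
        have a1 : ((M / p : ℕ) : ℝ) ≤ (M : ℝ) / p := Nat.cast_div_le
        have a2 : (M : ℝ) / p < ((M / p : ℕ) : ℝ) + 1 := by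
          rw [div_lt_iff₀ hp0']
          have := Nat.lt_div_mul_add (a := M) hp.pos
          have h' : M < (M / p + 1) * p := by nlinarith
          exact_mod_cast h'
        constructor <;> linarith
      have h4 : ‖∑ m ∈ Icc 1 (M / p), gm k p m - cm k p * ((M / p : ℕ) : ℂ)‖ ≤ 3 * κ * √M := by
        refine ih'.trans ?_
        have : √((M / p : ℕ) : ℝ) ≤ 3 / 4 * √M := by
          rw [Real.sqrt_le_left (by positivity), mul_pow, Real.sq_sqrt (by positivity)]
          have a1 : ((M / p : ℕ) : ℝ) ≤ (M : ℝ) / p := Nat.cast_div_le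
          have a2 : (M : ℝ) / p ≤ M / 2 := by
            have : (2:ℝ) ≤ p := by exact_mod_cast hp.two_le
            gcongr
          have : (0:ℝ) ≤ M := Nat.cast_nonneg M
          nlinarith
        nlinarith
      have h5 : 1 ≤ √(M:ℝ) := by rw [Real.one_le_sqrt]; exact_mod_cast h
      rw [h2]
      calc _ ≤ ‖(∑ n ∈ Icc 1 M, tm k p n - (rho k p : ℂ) * M)‖ +
          ‖I * (∑ m ∈ Icc 1 (M / p), gm k p m - cm k p * ((M / p : ℕ) : ℂ))‖ +
          ‖I * cm k p * (((M / p : ℕ) : ℂ) - (M : ℂ) / p)‖ := norm_add₃_le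
        _ ≤ 2 * ((k * p : ℕ) : ℝ) + 3 * κ * √M + ‖cm k p‖ * 1 := by
          rw [norm_mul, norm_mul, norm_mul, Complex.norm_I, one_mul, one_mul]
          gcongr
          exact tm_bound hk hp M
        _ = κ + 3 * κ * √M := by rw [hκ]; ring
        _ ≤ _ := by nlinarith

theorem psum_split (hp : p.Prime) (hpk : ¬ p ∣ k) (M : ℕ) :
    psum (gm k p) (p * M) 1 = psum (tm k p) (p * M) 1 + I / p * psum (gm k p) M 1 := by
  unfold psum
  rw [split hp hpk (fun n => (n : ℂ) ^ (-1 : ℂ)) (p * M), Nat.mul_div_cancel_left _ hp.pos, mul_sum,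
    mul_sum]
  congr 1
  apply sum_congr rfl
  intro m _
  simp only [Complex.cpow_neg_one]
  push_cast
  rw [mul_inv]
  ring

theorem model (hk : 1 ≤ k) (hp : p.Prime) (hpk : ¬ p ∣ k) :
    ∃ ℓ : ℂ, Tendsto (fun P : ℕ × ℂ => psum (gm k p) P.1 P.2 - cm k p * K P.1 P.2)
      (atTop ×ˢ 𝓝 1) (𝓝 ℓ) ∧ (ℓ / cm k p).im < 0 := by
  obtain ⟨ℓ, hℓ⟩ := joint (gm k p) (cm k p) _ (gm_bound hk hp hpk)
  obtain ⟨μ, hμ⟩ := joint (tm k p) (rho k p : ℂ) _ (tm_bound' hk hp)
  refine ⟨ℓ, hℓ, ?_⟩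
  have hp0 : (p:ℂ) ≠ 0 := by exact_mod_cast hp.ne_zero
  have hp1 : (1:ℝ) < p := by exact_mod_cast hp.one_lt
  have hρ : (rho k p : ℂ) ≠ 0 := by exact_mod_cast (rho_pos hk hp).ne'
  have hc := cm_ne hk hp
  have hcm := cm_mul (k := k) hp
  -- sequences
  have hmul : Tendsto (fun M : ℕ => p * M) atTop atTop :=
    tendsto_id.const_mul_atTop' hp.pos
  have hseq1 : Tendsto (fun M : ℕ => ((p * M, (1:ℂ)) : ℕ × ℂ)) atTop (atTop ×ˢ 𝓝 1) :=
    hmul.prodMk tendsto_const_nhds
  have hseq2 : Tendsto (fun M : ℕ => ((M, (1:ℂ)) : ℕ × ℂ)) atTop (atTop ×ˢ 𝓝 1) :=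
    tendsto_id.prodMk tendsto_const_nhds
  have a1 : Tendsto (fun M : ℕ => psum (gm k p) (p * M) 1 - cm k p * K (p * M) 1) atTop (𝓝 ℓ) :=
    by
    have h := hℓ.comp hseq1
    exact h
  have a2 : Tendsto (fun M : ℕ => psum (gm k p) M 1 - cm k p * K M 1) atTop (𝓝 ℓ) :=
    by
    have h := hℓ.comp hseq2
    exact h
  have a3 : Tendsto (fun M : ℕ => psum (tm k p) (p * M) 1 - (rho k p : ℂ) * K (p * M) 1) atTop (𝓝 μ) :=
    by
    have h := hμ.comp hseq1
    exact h
  have hlogmul : ∀ M : ℕ, 1 ≤ M → K (p * M) 1 = K p 1 + K M 1 := by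
    intro M hM
    rw [K_at_one _ hM, K_at_one _ hp.one_le, K_at_one _ (Nat.mul_pos hp.pos hM)]
    have e : ∀ n : ℕ, 1 ≤ n → Complex.log (n : ℂ) = ((Real.log (n:ℝ) : ℝ) : ℂ) := by
      intro n hn
      rw [Complex.ofReal_log (by positivity)]; push_cast; rfl
    rw [e _ hM, e _ hp.one_le, e _ (Nat.mul_pos hp.pos hM), ← Complex.ofReal_add, Nat.cast_mul,
      Real.log_mul (by positivity) (by positivity)]
  have a4 : Tendsto (fun M : ℕ => psum (gm k p) (p * M) 1 - cm k p * K (p * M) 1) atTop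
      (𝓝 (μ + I / p * ℓ + (rho k p - cm k p) * K p 1)) := by
    have := (a3.add (a2.const_mul (I / p))).add_const ((rho k p - cm k p) * K p 1)
    refine this.congr' ?_
    filter_upwards [eventually_ge_atTop 1] with M hM
    rw [psum_split hp hpk, hlogmul M hM, ← hcm]
    ring
  have hEq : ℓ = μ + I / p * ℓ + (rho k p - cm k p) * K p 1 := tendsto_nhds_unique a1 a4
  -- μ is real
  have hμre : μ.im = 0 := by
    have a5 : Tendsto (fun M : ℕ => psum (tm k p) (p * M) 1 - (rho k p : ℂ) * K (p * M) 1) atTop (𝓝 μ) := a3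
    have a6 := (Complex.continuous_im.tendsto μ).comp a5
    have a7 : Tendsto (fun _ : ℕ => (0:ℝ)) atTop (𝓝 μ.im) := by
      refine a6.congr' ?_
      filter_upwards [eventually_ge_atTop 1] with M hM
      have e1 : psum (tm k p) (p * M) 1 = ((∑ n ∈ Icc 1 (p * M), tr k p n * (n:ℝ)⁻¹ : ℝ) : ℂ) := by
        unfold psum tm
        push_cast
        apply sum_congr rfl
        intro n _
        rw [Complex.cpow_neg_one]
      have e2 : K (p * M) 1 = ((Real.log ((p * M : ℕ) : ℝ) : ℝ) : ℂ) := by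
        rw [K_at_one _ (Nat.mul_pos hp.pos hM), Complex.ofReal_log (by positivity)]
        push_cast; rfl
      show (psum (tm k p) (p * M) 1 - (rho k p : ℂ) * K (p * M) 1).im = 0
      rw [e1, e2, ← Complex.ofReal_mul, ← Complex.ofReal_sub, Complex.ofReal_im]
    exact (tendsto_nhds_unique a7 tendsto_const_nhds)
  -- conclude
  have hK : K p 1 = ((Real.log (p:ℝ) : ℝ) : ℂ) := by
    rw [K_at_one _ hp.one_le, Complex.ofReal_log (by positivity)]; push_cast; rfl
  have h1 : ℓ * (1 - I / p) = μ - I / p * cm k p * K p 1 := by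
    have : (rho k p : ℂ) - cm k p = - (I / p * cm k p) := by rw [← hcm]; ring
    rw [this] at hEq
    linear_combination hEq
  have hne := one_sub_ne hp
  have h2 : ℓ / cm k p = μ / rho k p - (Real.log (p:ℝ) : ℝ) * (I / p / (1 - I / p)) := by
    have h3 : ℓ = (μ - I / p * cm k p * K p 1) / (1 - I / p) := by
      rw [← h1, mul_div_assoc, div_self hne, mul_one]
    rw [h3, hK, ← hcm]
    field_simp
  rw [h2, Complex.sub_im]
  have h4 : (μ / (rho k p : ℂ)).im = 0 := by
    rw [Complex.div_ofReal_im, hμre, zero_div]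
  have h5 : (I / p / (1 - I / p) : ℂ) = (((-1 / ((p:ℝ)^2 + 1) : ℝ)) : ℂ) + ((((p:ℝ) / ((p:ℝ)^2 + 1)) : ℝ) : ℂ) * I := by
    have hpp : ((p:ℂ)^2 + 1) ≠ 0 := by
      have : (0:ℝ) < (p:ℝ)^2 + 1 := by positivity
      exact_mod_cast this.ne'
    have hpI : (p : ℂ) - I ≠ 0 := by
      intro h
      apply hne
      have : (1 - I / p : ℂ) = ((p:ℂ) - I) / p := by field_simp
      rw [this, h, zero_div]
    have e1 : (I / p / (1 - I / p) : ℂ) = I / (p - I) := by
      have : (1 - I / p : ℂ) = ((p:ℂ) - I) / p := by field_simp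
      rw [this]; field_simp
    rw [e1, div_eq_iff hpI]
    push_cast
    field_simp
    ring_nf
    rw [Complex.I_sq]
    ring
  have h6 : (((Real.log (p:ℝ) : ℝ) : ℂ) * (I / p / (1 - I / p))).im = Real.log p * (p / ((p:ℝ)^2 + 1)) := by
    rw [Complex.im_ofReal_mul, h5, Complex.add_im, Complex.ofReal_im, Complex.im_ofReal_mul]
    simp
  rw [h4, h6]
  have : 0 < Real.log p := Real.log_pos hp1
  have : 0 < Real.log p * (p / ((p:ℝ)^2 + 1)) := by positivity
  linarith

end Pool.Agent.R322.Turan
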