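import Mathlib
import Pool.Agent.R322.Turan.Model
import Pool.Agent.Helper352.Kron

set_option autoImplicit false

namespace Pool.Agent.R322.Turan

open Finset Filter Topology Complex MeasureTheory

/-- Logarithms of distinct primes are linearly independent over `ℤ`. -/
theorem log_prime_indep {ι : Type*} [Fintype ι] (P : ι → ℕ) (hP : ∀ i, (P i).Prime)
    (hinj : Function.Injective P) (c : ι → ℤ) (h1 : ∑ i, (c i : ℝ) * Real.log (P i) = 0) (j : ι) :
    c j = 0 := by
  classical
  have h3 : ∑ i, (((c i).toNat : ℕ) : ℝ) * Real.log (P i) = ∑ i, (((-c i).toNat : ℕ) : ℝ) * Real.log (P i) := by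
    rw [← sub_eq_zero, ← Finset.sum_sub_distrib, ← h1]
    apply Finset.sum_congr rfl
    intro i _
    rw [← sub_mul]
    congr 1
    have : ((c i).toNat : ℤ) - ((-c i).toNat : ℤ) = c i := by omega
    exact_mod_cast this
  have hpos : ∀ i, (0 : ℝ) < P i := fun i => by exact_mod_cast (hP i).pos
  have h4 : ∀ e : ι → ℕ, ∑ i, (e i : ℝ) * Real.log (P i) = Real.log ((∏ i, P i ^ e i : ℕ) : ℝ) := by
    intro e
    push_cast
    rw [Real.log_prod (fun i _ => (pow_pos (hpos i) _).ne')]
    apply Finset.sum_congr rfl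
    intro i _
    rw [Real.log_pow]
  rw [h4, h4] at h3
  have hpp : ∀ e : ι → ℕ, 0 < ∏ i, P i ^ e i := fun e =>
    Finset.prod_pos (fun i _ => pow_pos (hP i).pos _)
  have h5 : ∏ i, P i ^ (c i).toNat = ∏ i, P i ^ (-c i).toNat := by
    have := Real.log_injOn_pos (Set.mem_Ioi.2 (by exact_mod_cast hpp _)) (Set.mem_Ioi.2 (by exact_mod_cast hpp _)) h3
    exact_mod_cast this
  have h6 : ∀ e : ι → ℕ, (∏ i, P i ^ e i).factorization (P j) = e j := by
    intro e
    rw [Nat.factorization_prod (fun i _ => (pow_pos (hP i).pos _).ne')]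
    rw [Finsupp.finsetSum_apply, Finset.sum_eq_single j]
    · rw [(hP j).factorization_pow]; simp
    · intro i _ hij
      rw [(hP i).factorization_pow, Finsupp.single_apply, if_neg]
      exact fun h => hij (hinj h)
    · intro h; exact absurd (mem_univ _) h
  have h7 := congrArg (fun n => n.factorization (P j)) h5
  simp only [h6] at h7
  omega

/-- Kronecker for prime powers `p^{-it}`. -/
theorem kron_primes (N : ℕ) (u : ℕ → ℂ) (hu : ∀ n, ‖u n‖ = 1) (δ : ℝ) (hδ : 0 < δ) (T : ℝ) :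
    ∃ t > T, ∀ p : ℕ, p.Prime → p ≤ N → ‖(p : ℂ) ^ (-(I * t)) - u p‖ < δ := by
  classical
  let s : Finset ℕ := (range (N + 1)).filter Nat.Prime
  have hs : ∀ i : s, (i : ℕ).Prime := fun i => (mem_filter.1 i.2).2
  obtain ⟨t, ht, hT⟩ := Pool.Agent.Helper352.kronecker (ι := s)
    (fun i => -(Real.log (i : ℕ)) / (2 * Real.pi)) (fun i => (u i).arg / (2 * Real.pi))
    (by
      intro c hc
      have h0 : ∑ i : s, (c i : ℝ) * Real.log ((i : ℕ) : ℝ) = 0 := by
        have e : ∑ i : s, (c i : ℝ) * (-(Real.log (i : ℕ)) / (2 * Real.pi)) =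
            (-1 / (2 * Real.pi)) * ∑ i : s, (c i : ℝ) * Real.log ((i : ℕ) : ℝ) := by
          rw [mul_sum]
          apply sum_congr rfl
          intro i _
          ring
        rw [e] at hc
        rcases mul_eq_zero.1 hc with h | h
        · exfalso
          have := Real.pi_pos
          have h' : -1 / (2 * Real.pi) < 0 := div_neg_of_neg_of_pos (by norm_num) (by positivity)
          linarith
        · exact h
      have h1 : ∀ j, c j = 0 := fun j => log_prime_indep (fun i : s => (i : ℕ)) hs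
        Subtype.val_injective c h0 j
      refine ⟨0, ?_⟩
      simp [h1])
    (δ / (2 * Real.pi)) (by positivity) T
  refine ⟨t, ht, fun p hp hpN => ?_⟩
  obtain ⟨n, hn⟩ := hT ⟨p, mem_filter.2 ⟨mem_range.2 (by omega), hp⟩⟩
  simp only at hn
  have hp0 : (p : ℂ) ≠ 0 := by exact_mod_cast hp.ne_zero
  have hlog : Complex.log (p : ℂ) = ((Real.log (p:ℝ) : ℝ) : ℂ) := by
    rw [Complex.ofReal_log (by positivity)]; push_cast; rfl
  set a := t * (-(Real.log p) / (2 * Real.pi)) with ha
  set b := (u p).arg / (2 * Real.pi) with hb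
  have e1 : (p : ℂ) ^ (-(I * t)) = Complex.exp (2 * Real.pi * I * (a : ℂ)) := by
    rw [Complex.cpow_def_of_ne_zero hp0, hlog]
    congr 1
    have hpi : (Real.pi : ℂ) ≠ 0 := by exact_mod_cast Real.pi_ne_zero
    have : (a : ℂ) = (t : ℂ) * (-((Real.log (p:ℝ) : ℝ) : ℂ) / (2 * (Real.pi : ℂ))) := by
      rw [ha, Complex.ofReal_mul, Complex.ofReal_div, Complex.ofReal_neg, Complex.ofReal_mul]
      rfl
    rw [this]
    field_simp
  have e2 : u p = Complex.exp (2 * Real.pi * I * (b : ℂ)) := by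
    have h1 := Complex.norm_mul_exp_arg_mul_I (u p)
    rw [hu, Complex.ofReal_one, one_mul] at h1
    conv_lhs => rw [← h1]
    congr 1
    have hpi : (Real.pi : ℂ) ≠ 0 := by exact_mod_cast Real.pi_ne_zero
    have : (b : ℂ) = (((u p).arg : ℝ) : ℂ) / (2 * (Real.pi : ℂ)) := by
      rw [hb, Complex.ofReal_div, Complex.ofReal_mul]; rfl
    rw [this]
    field_simp
  have e3 : Complex.exp (2 * Real.pi * I * (a : ℂ)) =
      Complex.exp (2 * Real.pi * I * (b : ℂ)) * Complex.exp (I * ((2 * Real.pi * (a - b - n) : ℝ) : ℂ)) := by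
    rw [← Complex.exp_add]
    have : (2 * Real.pi * I * (b : ℂ) + I * ((2 * Real.pi * (a - b - n) : ℝ) : ℂ)) =
        2 * Real.pi * I * (a : ℂ) + ((-n : ℤ) : ℂ) * (2 * Real.pi * I) := by
      push_cast; ring
    rw [this, Complex.exp_add, Complex.exp_int_mul_two_pi_mul_I, mul_one]
  rw [e1, e3, ← e2]
  have e4 : u p * Complex.exp (I * ((2 * Real.pi * (a - b - n) : ℝ) : ℂ)) - u p =
      u p * (Complex.exp (I * ((2 * Real.pi * (a - b - n) : ℝ) : ℂ)) - 1) := by ring
  rw [e4, norm_mul, hu, one_mul]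
  refine lt_of_le_of_lt Real.norm_exp_I_mul_ofReal_sub_one_le ?_
  rw [Real.norm_eq_abs, abs_mul, abs_of_pos (by positivity : (0:ℝ) < 2 * Real.pi)]
  calc 2 * Real.pi * |a - b - n| < 2 * Real.pi * (δ / (2 * Real.pi)) := by
        have : (0:ℝ) < 2 * Real.pi := by positivity
        exact mul_lt_mul_of_pos_left hn this
    _ = δ := by field_simp

/-- Partial sums of a Dirichlet L-series. -/
noncomputable def S {k : ℕ} (χ : DirichletCharacter ℂ k) (N : ℕ) (s : ℂ) : ℂ :=
  ∑ n ∈ Icc 1 N, χ n * (n : ℂ) ^ (-s)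

theorem gm_mul' {k p : ℕ} (m n : ℕ) (hm : 1 ≤ m) (hn : 1 ≤ n) :
    gm k p (m * n) = gm k p m * gm k p n := by
  unfold gm
  have h2 : (m * n).factorization p = m.factorization p + n.factorization p := by
    rw [Nat.factorization_mul (by omega) (by omega)]; rfl
  rw [h2]
  by_cases h : m.Coprime k
  · by_cases h' : n.Coprime k
    · rw [if_pos (Nat.coprime_mul_iff_left.2 ⟨h, h'⟩), if_pos h, if_pos h', pow_add]
    · rw [if_neg (fun h'' => h' (Nat.coprime_mul_iff_left.1 h'').2), if_neg h', mul_zero]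
  · rw [if_neg (fun h'' => h (Nat.coprime_mul_iff_left.1 h'').1), if_neg h, zero_mul]

theorem gm_norm_le {k p : ℕ} (n : ℕ) : ‖gm k p n‖ ≤ 1 := by
  unfold gm
  split_ifs
  · rw [norm_pow, Complex.norm_I, one_pow]
  · simp

theorem gm_norm_eq {k p : ℕ} (n : ℕ) (h : n.Coprime k) : ‖gm k p n‖ = 1 := by
  unfold gm
  rw [if_pos h, norm_pow, Complex.norm_I, one_pow]

theorem norm_cpow_I (n : ℕ) (hn : 1 ≤ n) (t : ℝ) : ‖(n : ℂ) ^ (-(I * t))‖ = 1 := by
  have h0 : (0:ℝ) < n := by exact_mod_cast hn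
  have : (n : ℂ) = ((n : ℝ) : ℂ) := by push_cast; rfl
  rw [this, Complex.norm_cpow_eq_rpow_re_of_pos h0]
  simp

theorem approx {k p : ℕ} (χ : DirichletCharacter ℂ k) (N : ℕ) (δ : ℝ) (hδ : 0 < δ) (T : ℝ) :
    ∃ t > T, ∀ n : ℕ, 1 ≤ n → n ≤ N → ‖χ n * (n : ℂ) ^ (-(I * t)) - gm k p n‖ ≤ n * δ := by
  classical
  -- χ is unimodular on units
  have hχ : ∀ n : ℕ, n.Coprime k → ‖χ n‖ = 1 := fun n hn =>
    by
    obtain ⟨u, hu⟩ := (ZMod.isUnit_iff_coprime n k).2 hn
    rw [← hu]; exact χ.unit_norm_eq_one u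
  obtain ⟨t, ht, h⟩ := kron_primes N
    (fun n => if n.Coprime k then gm k p n / χ n else 1)
    (fun n => by
      split_ifs with hn
      · rw [norm_div, gm_norm_eq n hn, hχ n hn, div_one]
      · simp) δ hδ T
  refine ⟨t, ht, ?_⟩
  intro n
  induction n using Nat.strong_induction_on with
  | _ n ih =>
    intro hn1 hnN
    rcases Nat.lt_or_ge n 2 with h2 | h2
    · have : n = 1 := by omega
      subst this
      simp only [Nat.cast_one, map_one, one_cpow, one_mul]
      unfold gm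
      simp
      exact hδ.le
    · set r := n.minFac with hr
      have hrp : r.Prime := Nat.minFac_prime (by omega)
      obtain ⟨m, hm⟩ : r ∣ n := Nat.minFac_dvd n
      have hm1 : 1 ≤ m := by
        rcases Nat.eq_zero_or_pos m with h0 | h0
        · subst h0; omega
        · exact h0
      have hmn : m < n := by
        rw [hm]; nlinarith [hrp.two_le]
      have hrN : r ≤ N := (Nat.minFac_le (by omega)).trans hnN
      have ihm := ih m hmn hm1 (by omega)
      have hr0 : (0:ℝ) ≤ r := Nat.cast_nonneg _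
      have h1 : χ n * (n : ℂ) ^ (-(I * t)) =
          (χ r * (r : ℂ) ^ (-(I * t))) * (χ m * (m : ℂ) ^ (-(I * t))) := by
        have e1 : ((n : ℕ) : ZMod k) = (r : ZMod k) * (m : ZMod k) := by
          conv_lhs => rw [hm]
          push_cast; rfl
        have e2 : (n : ℂ) ^ (-(I * t)) = (r : ℂ) ^ (-(I * t)) * (m : ℂ) ^ (-(I * t)) := by
          conv_lhs => rw [hm]
          rw [Nat.cast_mul, Complex.natCast_mul_natCast_cpow]
        rw [e1, map_mul, e2]; ring
      have h2' : gm k p n = gm k p r * gm k p m := by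
        conv_lhs => rw [hm]
        exact gm_mul' r m hrp.one_le hm1
      have hprime : ‖χ r * (r : ℂ) ^ (-(I * t)) - gm k p r‖ ≤ δ := by
        by_cases hc : r.Coprime k
        · have h3 := h r hrp hrN
          rw [if_pos hc] at h3
          have hχ0 : χ r ≠ 0 := by
            intro h0; have := hχ r hc; rw [h0, norm_zero] at this; norm_num at this
          have h4 : χ r * (r : ℂ) ^ (-(I * t)) - gm k p r =
              χ r * ((r : ℂ) ^ (-(I * t)) - gm k p r / χ r) := by
            field_simp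
          rw [h4, norm_mul, hχ r hc, one_mul]
          exact h3.le
        · have h3 : χ r = 0 := χ.map_nonunit (fun h' => hc ((ZMod.isUnit_iff_coprime r k).1 h'))
          have h4 : gm k p r = 0 := by unfold gm; rw [if_neg hc]
          rw [h3, h4]; simp [hδ.le]
      rw [h1, h2']
      have h5 : (χ r * (r : ℂ) ^ (-(I * t))) * (χ m * (m : ℂ) ^ (-(I * t))) - gm k p r * gm k p m =
          (χ r * (r : ℂ) ^ (-(I * t)) - gm k p r) * (χ m * (m : ℂ) ^ (-(I * t))) +
          gm k p r * (χ m * (m : ℂ) ^ (-(I * t)) - gm k p m) := by ring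
      rw [h5]
      have h6 : ‖χ m * (m : ℂ) ^ (-(I * t))‖ ≤ 1 := by
        rw [norm_mul, norm_cpow_I m hm1, mul_one]
        exact χ.norm_le_one _
      calc _ ≤ ‖χ r * (r : ℂ) ^ (-(I * t)) - gm k p r‖ * ‖χ m * (m : ℂ) ^ (-(I * t))‖ +
          ‖gm k p r‖ * ‖χ m * (m : ℂ) ^ (-(I * t)) - gm k p m‖ := by
            refine (norm_add_le _ _).trans ?_
            rw [norm_mul, norm_mul (gm k p r)]
        _ ≤ δ * 1 + 1 * (m * δ) := by
            gcongr
            exact gm_norm_le r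
        _ ≤ n * δ := by
            have : (m : ℝ) + 1 ≤ n := by exact_mod_cast hmn
            nlinarith

theorem S_approx {k p : ℕ} (χ : DirichletCharacter ℂ k) (N : ℕ) (ε : ℝ) (hε : 0 < ε) (T : ℝ) :
    ∃ t > T, ∀ s : ℂ, 0 ≤ s.re → ‖S χ N (s + I * t) - psum (gm k p) N s‖ ≤ ε := by
  obtain ⟨t, ht, h⟩ := approx (p := p) χ N (ε / ((N:ℝ) ^ 2 + 1)) (by positivity) T
  refine ⟨t, ht, fun s hs => ?_⟩
  set δ := ε / ((N:ℝ) ^ 2 + 1) with hδ
  have hδ0 : 0 < δ := by positivity
  have h1 : S χ N (s + I * t) - psum (gm k p) N s =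
      ∑ n ∈ Icc 1 N, (χ n * (n : ℂ) ^ (-(I * t)) - gm k p n) * (n : ℂ) ^ (-s) := by
    unfold S psum
    rw [← sum_sub_distrib]
    apply sum_congr rfl
    intro n hn
    rw [mem_Icc] at hn
    have hn0 : (n : ℂ) ≠ 0 := by exact_mod_cast (by omega : n ≠ 0)
    have : -(s + I * t) = -(I * t) + -s := by ring
    rw [this, Complex.cpow_add _ _ hn0]
    ring
  rw [h1]
  calc _ ≤ ∑ n ∈ Icc 1 N, ‖(χ n * (n : ℂ) ^ (-(I * t)) - gm k p n) * (n : ℂ) ^ (-s)‖ := norm_sum_le _ _
    _ ≤ ∑ n ∈ Icc 1 N, (N : ℝ) * δ := by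
        apply sum_le_sum
        intro n hn
        rw [mem_Icc] at hn
        have hn0 : (0:ℝ) < n := by exact_mod_cast (by omega : 0 < n)
        have hn1 : (1:ℝ) ≤ n := by exact_mod_cast hn.1
        have e : ‖(n : ℂ) ^ (-s)‖ ≤ 1 := by
          have : (n : ℂ) = ((n : ℝ) : ℂ) := by push_cast; rfl
          rw [this, Complex.norm_cpow_eq_rpow_re_of_pos hn0]
          apply Real.rpow_le_one_of_one_le_of_nonpos hn1
          simpa using hs
        rw [norm_mul]
        have h2 := h n hn.1 hn.2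
        have h3 : (n:ℝ) ≤ N := by exact_mod_cast hn.2
        calc _ ≤ (n * δ) * 1 := by gcongr
          _ ≤ _ := by rw [mul_one]; gcongr
    _ = (N:ℝ)^2 * δ := by rw [sum_const, Nat.card_Icc]; simp; ring
    _ ≤ ε := by
        rw [hδ, ← mul_div_assoc, div_le_iff₀ (by positivity)]
        nlinarith

theorem exists_zero (f : ℂ → ℂ) (hf : Differentiable ℂ f) (z0 : ℂ) (R η : ℝ) (hR : 0 < R)
    (hη : 0 < η) (hc : ‖f z0‖ < η) (hs : ∀ z ∈ Metric.sphere z0 R, η ≤ ‖f z‖) :
    ∃ z ∈ Metric.closedBall z0 R, f z = 0 := by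
  by_contra hcon
  push Not at hcon
  have hd : DiffContOnCl ℂ (fun z => (f z)⁻¹) (Metric.ball z0 R) := by
    refine ⟨fun z hz => (DifferentiableAt.inv hf.differentiableAt
      (hcon z (Metric.ball_subset_closedBall hz))).differentiableWithinAt, ?_⟩
    rw [closure_ball z0 hR.ne']
    exact fun z hz => (ContinuousAt.inv₀ hf.continuous.continuousAt (hcon z hz)).continuousWithinAt
  have h1 := Complex.norm_le_of_forall_mem_frontier_norm_le (U := Metric.ball z0 R)
    Metric.isBounded_ball hd (C := η⁻¹) (by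
      intro z hz
      rw [frontier_ball z0 hR.ne'] at hz
      rw [norm_inv]
      exact inv_anti₀ hη (hs z hz)) (z := z0) (subset_closure (Metric.mem_ball_self hR))
  rw [norm_inv] at h1
  have h2 : 0 < ‖f z0‖ := norm_pos_iff.2 (hcon z0 (Metric.mem_closedBall_self hR.le))
  rw [inv_le_inv₀ h2 hη] at h1
  linarith

theorem differentiable_S {k : ℕ} (χ : DirichletCharacter ℂ k) (N : ℕ) : Differentiable ℂ (S χ N) := by
  unfold S
  apply Differentiable.fun_sum
  intro n hn
  rw [mem_Icc] at hn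
  have hn0 : (n : ℂ) ≠ 0 := by exact_mod_cast (by omega : n ≠ 0)
  exact (differentiable_const _).mul (differentiable_neg.const_cpow (Or.inl hn0))

/-- **Main theorem.** For every modulus `k ≥ 1` there are `κ > 0` and `N₀` such that for every
Dirichlet character modulo `k` and every `N ≥ N₀` the partial sum `S_N(s, χ)` has zeros with
`σ ≥ 1 + κ / (log N)²` and arbitrarily large imaginary part. -/
theorem main (k : ℕ) (hk : 1 ≤ k) : ∃ κ > 0, ∃ N0 : ℕ, 2 ≤ N0 ∧ ∀ χ : DirichletCharacter ℂ k,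
    ∀ N ≥ N0, ∀ T : ℝ, ∃ s : ℂ, 1 + κ / (Real.log N) ^ 2 ≤ s.re ∧ T < s.im ∧ S χ N s = 0 := by
  obtain ⟨p, hpk', hp⟩ := Nat.exists_infinite_primes (k + 1)
  have hpk : ¬ p ∣ k := fun h => by have := Nat.le_of_dvd hk h; omega
  obtain ⟨ℓ, hℓ, him⟩ := model hk hp hpk
  obtain ⟨κ, hκ, N0, hN0, H⟩ := ball_exists (gm k p) (cm k p) ℓ (cm_ne hk hp) hℓ him
  refine ⟨κ, hκ, N0, hN0, fun χ N hN T => ?_⟩
  obtain ⟨s0, R, hR, η, hη, h1, h2, h3⟩ := H N hN
  have hN' : (1:ℝ) < N := by exact_mod_cast (by omega : 1 < N)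
  have hL : 0 < Real.log N := Real.log_pos hN'
  have hbre : ∀ s ∈ Metric.closedBall s0 R, 1 < s.re := by
    intro s hs
    have := h1 s hs
    have : 0 < κ / (Real.log N) ^ 2 := by positivity
    linarith
  set B := ‖s0 - 1‖ + R with hB
  have hB0 : 0 < B := by positivity
  have hBs : ∀ s ∈ Metric.closedBall s0 R, ‖s - 1‖ ≤ B := by
    intro s hs
    rw [mem_closedBall_iff_norm] at hs
    calc ‖s - 1‖ = ‖(s0 - 1) + (s - s0)‖ := by ring_nf
      _ ≤ ‖s0 - 1‖ + ‖s - s0‖ := norm_add_le _ _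
      _ ≤ B := by rw [hB]; linarith
  obtain ⟨t, ht, happ⟩ := S_approx (p := p) χ N (η / (2 * B)) (by positivity) (T - s0.im + R)
  have hdiff : ∀ s ∈ Metric.closedBall s0 R,
      ‖(s - 1) * S χ N (s + I * t) - (s - 1) * psum (gm k p) N s‖ ≤ η / 2 := by
    intro s hs
    rw [← mul_sub, norm_mul]
    have e1 := hBs s hs
    have e2 := happ s (by linarith [hbre s hs])
    calc _ ≤ B * (η / (2 * B)) := by gcongr
      _ = η / 2 := by field_simp
  obtain ⟨z, hz, hz0⟩ := exists_zero (fun s => (s - 1) * S χ N (s + I * t))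
    (by
      refine (differentiable_id.sub_const 1).mul ?_
      exact (differentiable_S χ N).comp (differentiable_id.add_const (I * t)))
    s0 R (3 / 2 * η) hR (by positivity)
    (by
      have e := hdiff s0 (Metric.mem_closedBall_self hR.le)
      have := norm_le_norm_add_norm_sub' ((s0 - 1) * S χ N (s0 + I * t)) ((s0 - 1) * psum (gm k p) N s0)
      show ‖(s0 - 1) * S χ N (s0 + I * t)‖ < 3 / 2 * η
      linarith)
    (by
      intro s hs
      have e := hdiff s (Metric.sphere_subset_closedBall hs)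
      have e2 := h3 s hs
      have := norm_le_norm_add_norm_sub' ((s - 1) * psum (gm k p) N s) ((s - 1) * S χ N (s + I * t))
      rw [norm_sub_rev] at this
      show 3 / 2 * η ≤ ‖(s - 1) * S χ N (s + I * t)‖
      linarith)
  refine ⟨z + I * t, ?_, ?_, ?_⟩
  · have : (z + I * t).re = z.re := by simp
    rw [this]; exact h1 z hz
  · have e1 : (z + I * t).im = z.im + t := by simp
    rw [e1]
    rw [mem_closedBall_iff_norm] at hz
    have e2 := (Complex.abs_im_le_norm (z - s0)).trans hz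
    rw [Complex.sub_im, abs_le] at e2
    linarith [e2.1]
  · have hz1 : z - 1 ≠ 0 := by
      intro h
      have : z = 1 := sub_eq_zero.1 h
      have h' := hbre z hz
      rw [this] at h'; simp at h'
    exact (mul_eq_zero.1 hz0).resolve_left hz1

end Pool.Agent.R322.Turan
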